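import Pool.Agent.helper35.HP.E0
import Pool.Agent.helper20.HP.S1

/-! Module ut:E2 of the project MP_5ae64c_pr: concentration of window averages for killed words. -/

open scoped BigOperators Topology
open Filter MeasureTheory

namespace Pool.Agent.helper20.HP

section
variable {V : Type} [Fintype V] [DecidableEq V] {K : HW V} {θ : ℝ} {h : ℕ}

theorem E2_win {α : Type} (b U N0 m0 : ℕ) (L1 L2 : List α)
    (hL2 : L2.length = m0 + (2 * b + U) * N0 + (b + U)) (m : ℕ)
    (hm : m ∈ Finset.Ioc m0 (m0 + (2 * b + U) * N0)) :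
    win b U m (L1 ++ L2) =
      ((L2.take ((2 * b + U) * (N0 + 1))).drop (m0 + (2 * b + U) * N0 - m)).take (2 * b + U) := by
  rw [Finset.mem_Ioc] at hm
  obtain ⟨hm1, hm2⟩ := hm
  unfold win
  have e1 : (L1 ++ L2).length - m - (b + U) = L1.length + (m0 + (2 * b + U) * N0 - m) := by
    rw [List.length_append, hL2]
    omega
  rw [e1, List.drop_append, List.drop_take, List.take_take]
  have e2 : L1.drop (L1.length + (m0 + (2 * b + U) * N0 - m)) = [] := by
    apply List.drop_eq_nil_of_le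
    omega
  rw [e2, List.nil_append]
  have e3 : L1.length + (m0 + (2 * b + U) * N0 - m) - L1.length = m0 + (2 * b + U) * N0 - m := by
    omega
  rw [e3]
  have e4 : min (2 * b + U) ((2 * b + U) * (N0 + 1) - (m0 + (2 * b + U) * N0 - m)) = 2 * b + U := by
    apply min_eq_left
    have : (2 * b + U) * (N0 + 1) = (2 * b + U) * N0 + (2 * b + U) := by ring
    omega
  rw [e4]

theorem E2_reindex (m0 M : ℕ) (g : ℕ → ℝ) :
    ∑ m ∈ Finset.Ioc m0 (m0 + M), g (m0 + M - m) = ∑ i ∈ Finset.range M, g i := by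
  apply Finset.sum_nbij' (fun m => m0 + M - m) (fun i => m0 + M - i)
  · intro m hm
    rw [Finset.mem_Ioc] at hm
    rw [Finset.mem_range]
    omega
  · intro i hi
    rw [Finset.mem_range] at hi
    rw [Finset.mem_Ioc]
    omega
  · intro m hm
    rw [Finset.mem_Ioc] at hm
    omega
  · intro i hi
    rw [Finset.mem_range] at hi
    omega
  · intro m hm
    rfl

theorem win_conc (hP : Par K θ h) (o : V) (Γ : List V) (hΓ : Γ.Nodup) (b U N0 m0 N : ℕ) (hb : 1 ≤ b)
    (hm0 : b ≤ m0) (f : List (Aut K) → ℝ) (C : ℝ) (hC : 0 < C)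
    (hf : ∀ w, w.length = 2 * b + U → |f w| ≤ C) (ε : ℝ) (hε : 0 < ε) :
    kmL K o Γ (m0 + (2 * b + U) * N0 + (b + U)) N (fun _ _ L =>
        ind (ε * (((2 * b + U : ℕ) : ℝ) * N0) <
          |∑ m ∈ Finset.Ioc m0 (m0 + (2 * b + U) * N0), (f (win b U m L) - EL K o (2 * b + U) f)|))
      ≤ (Fintype.card V : ℝ) * (2 * ((2 * b + U : ℕ) : ℝ) * Real.exp (- (ε ^ 2 * N0 / (16 * C ^ 2)))) := by
  set ℓ := 2 * b + U with hℓ
  set J := m0 + ℓ * N0 + (b + U) with hJ
  set c : ℝ := 2 * ((ℓ : ℕ) : ℝ) * Real.exp (- (ε ^ 2 * N0 / (16 * C ^ 2))) with hc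
  have hc0 : 0 ≤ c := by positivity
  have hJ' : J = ℓ * (N0 + 1) + (m0 - b) := by
    rw [hJ, hℓ]
    have : (2 * b + U) * (N0 + 1) = (2 * b + U) * N0 + (2 * b + U) := by ring
    omega
  set G : List (Aut K) → ℝ := fun L => ind (ε * ((ℓ : ℝ) * N0) <
        |∑ i ∈ Finset.range (ℓ * N0), (f ((L.drop i).take ℓ) - EL K o ℓ f)|) with hG
  have hconc : EL K o (ℓ * (N0 + 1)) G ≤ c := by
    have := conc K o ℓ N0 (by omega) f C hC hf ε hε
    simpa [hG, hc] using this
  -- the integrand on a word `L1 ++ L2`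
  have key : ∀ L1 L2 : List (Aut K), L2.length = J →
      ind (ε * ((ℓ : ℝ) * N0) <
          |∑ m ∈ Finset.Ioc m0 (m0 + ℓ * N0), (f (win b U m (L1 ++ L2)) - EL K o ℓ f)|)
        = G (L2.take (ℓ * (N0 + 1))) := by
    intro L1 L2 hL2
    have e : ∑ m ∈ Finset.Ioc m0 (m0 + ℓ * N0), (f (win b U m (L1 ++ L2)) - EL K o ℓ f)
        = ∑ i ∈ Finset.range (ℓ * N0),
          (f (((L2.take (ℓ * (N0 + 1))).drop i).take ℓ) - EL K o ℓ f) := by
      rw [← E2_reindex m0 (ℓ * N0) (fun i =>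
        (f (((L2.take (ℓ * (N0 + 1))).drop i).take ℓ) - EL K o ℓ f))]
      apply Finset.sum_congr rfl
      intro m hm
      rw [E2_win b U N0 m0 L1 L2 (by rw [hL2]) m hm]
    simp only [hG]
    rw [e]
  have hEL : EL K o J (fun L2 => G (L2.take (ℓ * (N0 + 1)))) ≤ c := by
    rw [hJ', EL_split]
    refine le_trans (le_of_eq ?_) hconc
    apply EL_congr
    intro L hL
    have : (fun L' : List (Aut K) => G ((L ++ L').take (ℓ * (N0 + 1)))) = fun _ => G L := by
      funext L'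
      rw [List.take_append_of_le_length (by omega), List.take_of_length_le (by omega)]
    rw [this, EL_const]
  have hstep : ∀ s, kmTL K o Γ (J + s) (fun _ _ L =>
        ind (ε * ((ℓ : ℝ) * N0) <
          |∑ m ∈ Finset.Ioc m0 (m0 + ℓ * N0), (f (win b U m L) - EL K o ℓ f)|))
        ≤ c * kmTL K o Γ s (fun _ _ _ => 1) := by
    intro s
    rw [add_comm J s, kmTL_split, ← kmTL_mul_left]
    apply kmTL_mono
    intro i L hL _
    rw [mul_one]
    refine le_trans ?_ hEL
    apply EL_mono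
    intro L' hL'
    rw [key L L' hL']
    have h1 := ind_le_one (∀ y ∈ vp o (fr K o (Γ.get i) * L.prod) L', y ∉ Γ)
    have h2 : 0 ≤ G (L'.take (ℓ * (N0 + 1))) := ind_nonneg _
    nlinarith [ind_nonneg (∀ y ∈ vp o (fr K o (Γ.get i) * L.prod) L', y ∉ Γ)]
  have hcard := kmL_le_card (K := K) o Γ hΓ 0 (N - J)
  calc kmL K o Γ J N (fun _ _ L =>
        ind (ε * ((ℓ : ℝ) * N0) <
          |∑ m ∈ Finset.Ioc m0 (m0 + ℓ * N0), (f (win b U m L) - EL K o ℓ f)|))
      = ∑ s ∈ Finset.range (N - J), kmTL K o Γ (J + s) (fun _ _ L =>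
        ind (ε * ((ℓ : ℝ) * N0) <
          |∑ m ∈ Finset.Ioc m0 (m0 + ℓ * N0), (f (win b U m L) - EL K o ℓ f)|)) := by
        unfold kmL
        rw [Finset.sum_Ico_eq_sum_range]
    _ ≤ ∑ s ∈ Finset.range (N - J), c * kmTL K o Γ s (fun _ _ _ => 1) :=
        Finset.sum_le_sum (fun s _ => hstep s)
    _ = c * kmL K o Γ 0 (N - J) (fun _ _ _ => 1) := by
        unfold kmL
        rw [Finset.mul_sum, Finset.sum_Ico_eq_sum_range]
        simp
    _ ≤ c * (Fintype.card V : ℝ) := mul_le_mul_of_nonneg_left hcard hc0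
    _ = (Fintype.card V : ℝ) * c := mul_comm _ _

end

end Pool.Agent.helper20.HP
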