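import Pool.Agent.helper20.HP.S1

/-! Module ut:E5 of the project MP_5ae64c_pr: the error term `err_D`. -/

open scoped BigOperators Topology
open Filter MeasureTheory

namespace Pool.Agent.helper20.HP

section
variable {V : Type} [Fintype V] [DecidableEq V] {K : HW V} {θ : ℝ} {h : ℕ}

theorem E5_run_pos (x : V) (ρ l : List V) : 1 ≤ (run (x :: ρ) l).length := by
  obtain ⟨τ, hτ⟩ := run_head x ρ l
  rw [hτ]
  simp

/-- decomposition with respect to the level -/
theorem E5_level (K : HW V) (len r K0 : ℕ) (hlen : 1 ≤ len) (z : V) (φ : List V → ℝ)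
    (hφ : ∀ F, 0 ≤ φ F) :
    ∑ m ∈ Finset.range (K0 + 1), W K m z (fun F => ind (len + lel z F = r + 1) * φ F) ≤
      ∑ q ∈ Finset.Icc (r - K0) r, ind (len = q + 1) *
        ∑ m ∈ Finset.range (K0 + 1), W K m z (fun F => ind (lel z F = r - q) * φ F) := by
  have hnn : ∀ q m, 0 ≤ W K m z (fun F => ind (lel z F = r - q) * φ F) := fun q m =>
    W_nonneg K m z (fun F _ => mul_nonneg (ind_nonneg _) (hφ F))
  by_cases hq : len - 1 ∈ Finset.Icc (r - K0) r
  · have h1 : ind (len = (len - 1) + 1) *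
        ∑ m ∈ Finset.range (K0 + 1), W K m z (fun F => ind (lel z F = r - (len - 1)) * φ F) ≤
      ∑ q ∈ Finset.Icc (r - K0) r, ind (len = q + 1) *
        ∑ m ∈ Finset.range (K0 + 1), W K m z (fun F => ind (lel z F = r - q) * φ F) := by
      apply Finset.single_le_sum (f := fun q => ind (len = q + 1) *
        ∑ m ∈ Finset.range (K0 + 1), W K m z (fun F => ind (lel z F = r - q) * φ F)) _ hq
      intro q _
      exact mul_nonneg (ind_nonneg _) (Finset.sum_nonneg (fun m _ => hnn q m))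
    refine le_trans ?_ h1
    rw [ind_true (by omega), one_mul]
    apply Finset.sum_le_sum
    intro m _
    apply W_mono
    intro F _
    apply mul_le_mul_of_nonneg_right _ (hφ F)
    apply ind_mono
    intro hh
    omega
  · have h0 : ∑ m ∈ Finset.range (K0 + 1), W K m z (fun F => ind (len + lel z F = r + 1) * φ F)
        = 0 := by
      apply Finset.sum_eq_zero
      intro m hm
      rw [Finset.mem_range] at hm
      have : W K m z (fun F => ind (len + lel z F = r + 1) * φ F) = W K m z (fun _ => 0) := by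
        apply W_congr
        intro F hF
        have hle := lel_le z F
        rw [ind_false, zero_mul]
        intro hh
        apply hq
        rw [Finset.mem_Icc]
        omega
      rw [this, W_const]
    rw [h0]
    exact Finset.sum_nonneg (fun q _ => mul_nonneg (ind_nonneg _)
      (Finset.sum_nonneg (fun m _ => hnn q m)))

/-- mass of words with given levels -/
theorem E5_mass (K : HW V) (Γ : List V) (N b : ℕ) (I : Finset ℕ) (c : ℝ) (hc : 0 ≤ c) :
    ∑ s ∈ Finset.Ico b N, kmT K Γ s (fun x ρ l => ∑ q ∈ I, c * lev q x ρ l)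
      ≤ c * ∑ q ∈ I, PhiN K Γ N q := by
  have hnn : ∀ q s, 0 ≤ kmT K Γ s (lev q) := fun q s =>
    kmT_nonneg K Γ s (fun x ρ l => ind_nonneg _)
  calc ∑ s ∈ Finset.Ico b N, kmT K Γ s (fun x ρ l => ∑ q ∈ I, c * lev q x ρ l)
      = ∑ s ∈ Finset.Ico b N, ∑ q ∈ I, c * kmT K Γ s (lev q) := by
        apply Finset.sum_congr rfl
        intro s _
        rw [kmT_sum]
        apply Finset.sum_congr rfl
        intro q _
        exact kmT_mul_left K Γ s c (lev q)
    _ ≤ ∑ s ∈ Finset.range N, ∑ q ∈ I, c * kmT K Γ s (lev q) := by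
        apply Finset.sum_le_sum_of_subset_of_nonneg
        · intro s hs
          rw [Finset.mem_Ico] at hs
          rw [Finset.mem_range]
          exact hs.2
        · intro s _ _
          exact Finset.sum_nonneg (fun q _ => mul_nonneg hc (hnn q s))
    _ = c * ∑ q ∈ I, PhiN K Γ N q := by
        rw [Finset.sum_comm, Finset.mul_sum]
        apply Finset.sum_congr rfl
        intro q _
        rw [← Finset.mul_sum]
        rfl


theorem E5_rtake_length {α : Type} (l : List α) (n : ℕ) : (l.rtake n).length ≤ n := by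
  rw [List.rtake, List.length_drop]
  omega

theorem E5_card (r K0 : ℕ) : ((Finset.Icc (r - K0) r).card : ℝ) ≤ (K0 : ℝ) + 1 := by
  rw [Nat.card_Icc]
  have : r + 1 - (r - K0) ≤ K0 + 1 := by omega
  exact_mod_cast this

theorem E5_sub_nodup (Γ : List V) (hΓ : Γ.Nodup) (i : Fin Γ.length) :
    (Γ.get i :: Γ.drop (i + 1)).Nodup := by
  have : Γ.get i :: Γ.drop (i + 1) = Γ.drop i := by
    rw [List.get_eq_getElem, List.getElem_cons_drop]
  rw [this]
  exact hΓ.sublist (List.drop_sublist _ _)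

/-- part with a long hit at the end of the first word -/
theorem E5_A (hP : Par K θ h) (Γ : List V) (hΓ : Γ.Nodup) (r K0 N : ℕ) :
    ∑ s ∈ Finset.Ico (2 * h) N, kmT K Γ s (fun x ρ l => ∑ q ∈ Finset.Icc (r - K0) r,
        CZ θ * (ind (LHin (2 * h) (2 * h) x ρ l) * lev q x ρ l))
      ≤ CZ θ * (((K0 : ℝ) + 1) * (3 / 2 * CZ θ * ((2 * h : ℕ) + 1))) := by
  have hCZ : 0 ≤ CZ θ := by unfold CZ; positivity
  have hnn : ∀ q s, 0 ≤ kmT K Γ s (fun x ρ l => ind (LHin (2 * h) (2 * h) x ρ l) * lev q x ρ l) :=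
    fun q s => kmT_nonneg K Γ s (fun x ρ l => mul_nonneg (ind_nonneg _) (ind_nonneg _))
  calc ∑ s ∈ Finset.Ico (2 * h) N, kmT K Γ s (fun x ρ l => ∑ q ∈ Finset.Icc (r - K0) r,
        CZ θ * (ind (LHin (2 * h) (2 * h) x ρ l) * lev q x ρ l))
      = ∑ s ∈ Finset.Ico (2 * h) N, ∑ q ∈ Finset.Icc (r - K0) r,
        CZ θ * kmT K Γ s (fun x ρ l => ind (LHin (2 * h) (2 * h) x ρ l) * lev q x ρ l) := by
        apply Finset.sum_congr rfl
        intro s _
        rw [kmT_sum]
        apply Finset.sum_congr rfl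
        intro q _
        exact kmT_mul_left K Γ s (CZ θ)
          (fun x ρ l => ind (LHin (2 * h) (2 * h) x ρ l) * lev q x ρ l)
    _ ≤ ∑ s ∈ Finset.range N, ∑ q ∈ Finset.Icc (r - K0) r,
        CZ θ * kmT K Γ s (fun x ρ l => ind (LHin (2 * h) (2 * h) x ρ l) * lev q x ρ l) := by
        apply Finset.sum_le_sum_of_subset_of_nonneg
        · intro s hs
          rw [Finset.mem_Ico] at hs
          rw [Finset.mem_range]
          exact hs.2
        · intro s _ _
          exact Finset.sum_nonneg (fun q _ => mul_nonneg hCZ (hnn q s))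
    _ = ∑ q ∈ Finset.Icc (r - K0) r,
        CZ θ * km K Γ N (fun x ρ l => ind (LHin (2 * h) (2 * h) x ρ l) * lev q x ρ l) := by
        rw [Finset.sum_comm]
        apply Finset.sum_congr rfl
        intro q _
        rw [← Finset.mul_sum]
        rfl
    _ ≤ ∑ q ∈ Finset.Icc (r - K0) r, CZ θ * (3 / 2 * CZ θ * ((2 * h : ℕ) + 1)) := by
        apply Finset.sum_le_sum
        intro q _
        apply mul_le_mul_of_nonneg_left _ hCZ
        have h16 := hP.h_le
        exact_mod_cast LH_mass hP Γ hΓ N q (2 * h) (by omega)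
    _ = (Finset.Icc (r - K0) r).card * (CZ θ * (3 / 2 * CZ θ * ((2 * h : ℕ) + 1))) := by
        rw [Finset.sum_const, nsmul_eq_mul]
    _ ≤ ((K0 : ℝ) + 1) * (CZ θ * (3 / 2 * CZ θ * ((2 * h : ℕ) + 1))) := by
        apply mul_le_mul_of_nonneg_right (E5_card r K0)
        positivity
    _ = CZ θ * (((K0 : ℝ) + 1) * (3 / 2 * CZ θ * ((2 * h : ℕ) + 1))) := by ring

/-- the constant of part C -/
noncomputable def E5k3 (θ : ℝ) (n h K0 : ℕ) : ℝ :=
  2 * CZ θ * θ * (K0 * ((2 * h : ℕ) + 1 : ℝ) * (3 / (2 * (n : ℝ))))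

/-- the constant of part B -/
noncomputable def E5k1 (θ : ℝ) (n h K0 g r : ℕ) : ℝ :=
  CZ θ * θ * (K0 * ((g : ℝ) + (r + 2 * h + 1)) * (3 / (2 * (n : ℝ))))

/-- pointwise splitting -/
theorem E5_point (hP : Par K θ h) (Γ : List V) (r K0 : ℕ)
    (hK : 4 * K0 ≤ Nat.sqrt (Fintype.card V)) (x : V) (ρ l : List V) :
    ∑ m ∈ Finset.range (K0 + 1), W K m (lst x l) (fun F =>
        ind ((run (x :: ρ) l).length + lel (lst x l) F = r + 1) *
        ind ((∃ y ∈ F, y ∈ Γ ∨ y ∈ run (x :: ρ) (l.rdrop (2 * h))) ∨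
          (∃ y ∈ F.drop (2 * h), y ∈ (x :: l).rtake (2 * h + 1))))
    ≤ (∑ q ∈ Finset.Icc (r - K0) r,
        CZ θ * (ind (LHin (2 * h) (2 * h) x ρ l) * lev q x ρ l)) +
      (ind (¬ LHin (2 * h) (2 * h) x ρ l) *
        ∑ m ∈ Finset.range (K0 + 1), W K m (lst x l) (fun F =>
          ind ((run (x :: ρ) l).length + lel (lst x l) F = r + 1) *
          ind (∃ y ∈ F, y ∈ Γ ∨ y ∈ run (x :: ρ) (l.rdrop (2 * h))))) +
      (∑ q ∈ Finset.Icc (r - K0) r, E5k3 θ (Fintype.card V) h K0 * lev q x ρ l) := by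
  have hCZ : 0 ≤ CZ θ := by unfold CZ; positivity
  have hθ := hP.one_le
  have hlen := E5_run_pos x ρ l
  -- E2 part
  have hE2 : ∑ m ∈ Finset.range (K0 + 1), W K m (lst x l) (fun F =>
        ind ((run (x :: ρ) l).length + lel (lst x l) F = r + 1) *
        ind (∃ y ∈ F.drop (2 * h), y ∈ (x :: l).rtake (2 * h + 1)))
      ≤ ∑ q ∈ Finset.Icc (r - K0) r, E5k3 θ (Fintype.card V) h K0 * lev q x ρ l := by
    refine le_trans (E5_level K _ r K0 hlen (lst x l)
      (fun F => ind (∃ y ∈ F.drop (2 * h), y ∈ (x :: l).rtake (2 * h + 1)))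
      (fun F => ind_nonneg _)) ?_
    apply Finset.sum_le_sum
    intro q _
    rw [mul_comm]
    apply mul_le_mul_of_nonneg_right _ (ind_nonneg _)
    refine le_trans (X3 hP K0 hK (lst x l) (r - q) ((x :: l).rtake (2 * h + 1))) ?_
    unfold E5k3
    apply mul_le_mul_of_nonneg_left _ (by positivity)
    apply mul_le_mul_of_nonneg_right _ (by positivity)
    apply mul_le_mul_of_nonneg_left _ (by positivity)
    have := E5_rtake_length (x :: l) (2 * h + 1)
    exact_mod_cast this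
  -- E1 part with long hit
  have hE1 : ind (LHin (2 * h) (2 * h) x ρ l) * ∑ m ∈ Finset.range (K0 + 1), W K m (lst x l) (fun F =>
          ind ((run (x :: ρ) l).length + lel (lst x l) F = r + 1) *
          ind (∃ y ∈ F, y ∈ Γ ∨ y ∈ run (x :: ρ) (l.rdrop (2 * h))))
      ≤ ∑ q ∈ Finset.Icc (r - K0) r,
        CZ θ * (ind (LHin (2 * h) (2 * h) x ρ l) * lev q x ρ l) := by
    have h1 : ∑ m ∈ Finset.range (K0 + 1), W K m (lst x l) (fun F =>
          ind ((run (x :: ρ) l).length + lel (lst x l) F = r + 1) *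
          ind (∃ y ∈ F, y ∈ Γ ∨ y ∈ run (x :: ρ) (l.rdrop (2 * h))))
        ≤ ∑ q ∈ Finset.Icc (r - K0) r, CZ θ * lev q x ρ l := by
      refine le_trans (E5_level K _ r K0 hlen (lst x l)
        (fun F => ind (∃ y ∈ F, y ∈ Γ ∨ y ∈ run (x :: ρ) (l.rdrop (2 * h))))
        (fun F => ind_nonneg _)) ?_
      apply Finset.sum_le_sum
      intro q _
      rw [mul_comm]
      apply mul_le_mul_of_nonneg_right _ (ind_nonneg _)
      refine le_trans ?_ (Zq_le hP K0 (r - q) (lst x l) (by omega))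
      unfold Zq
      apply Finset.sum_le_sum
      intro m _
      apply W_mono
      intro F _
      have e1 := ind_le_one (∃ y ∈ F, y ∈ Γ ∨ y ∈ run (x :: ρ) (l.rdrop (2 * h)))
      have e2 := ind_nonneg (lel (lst x l) F = r - q)
      nlinarith
    refine le_trans (mul_le_mul_of_nonneg_left h1 (ind_nonneg _)) (le_of_eq ?_)
    rw [Finset.mul_sum]
    apply Finset.sum_congr rfl
    intro q _
    ring
  -- assembly
  have hsplit : ∑ m ∈ Finset.range (K0 + 1), W K m (lst x l) (fun F =>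
        ind ((run (x :: ρ) l).length + lel (lst x l) F = r + 1) *
        ind ((∃ y ∈ F, y ∈ Γ ∨ y ∈ run (x :: ρ) (l.rdrop (2 * h))) ∨
          (∃ y ∈ F.drop (2 * h), y ∈ (x :: l).rtake (2 * h + 1))))
      ≤ ∑ m ∈ Finset.range (K0 + 1), W K m (lst x l) (fun F =>
          ind ((run (x :: ρ) l).length + lel (lst x l) F = r + 1) *
          ind (∃ y ∈ F, y ∈ Γ ∨ y ∈ run (x :: ρ) (l.rdrop (2 * h)))) +
        ∑ m ∈ Finset.range (K0 + 1), W K m (lst x l) (fun F =>
          ind ((run (x :: ρ) l).length + lel (lst x l) F = r + 1) *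
          ind (∃ y ∈ F.drop (2 * h), y ∈ (x :: l).rtake (2 * h + 1))) := by
    rw [← Finset.sum_add_distrib]
    apply Finset.sum_le_sum
    intro m _
    rw [← W_add]
    apply W_mono
    intro F _
    rw [← mul_add]
    exact mul_le_mul_of_nonneg_left (ind_or_le _ _) (ind_nonneg _)
  have hone : ind (¬ LHin (2 * h) (2 * h) x ρ l) = 1 - ind (LHin (2 * h) (2 * h) x ρ l) :=
    ind_not _
  rw [hone]
  nlinarith [hsplit, hE1, hE2]


/-- part B, conditionally on the word without its last `2h` steps -/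
theorem E5_B1 (hP : Par K θ h) (Γ : List V) (r K0 : ℕ)
    (hK : 4 * K0 ≤ Nat.sqrt (Fintype.card V)) (x : V) (ρ l1 : List V) (hnd : (x :: ρ).Nodup) :
    W K (2 * h) (lst x l1) (fun B => ind (∀ y ∈ B, y ∉ Γ) *
      (ind (¬ LHin (2 * h) (2 * h) x ρ (l1 ++ B)) *
        ∑ m ∈ Finset.range (K0 + 1), W K m (lst x (l1 ++ B)) (fun F =>
          ind ((run (x :: ρ) (l1 ++ B)).length + lel (lst x (l1 ++ B)) F = r + 1) *
          ind (∃ y ∈ F, y ∈ Γ ∨ y ∈ run (x :: ρ) ((l1 ++ B).rdrop (2 * h))))))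
      ≤ ∑ q ∈ Finset.Icc (r - K0 - 2 * h) (r + 2 * h),
          E5k1 θ (Fintype.card V) h K0 Γ.length r * lev q x ρ l1 := by
  have hCZ : 0 ≤ CZ θ := by unfold CZ; positivity
  have hθ := hP.one_le
  have hk1 : 0 ≤ E5k1 θ (Fintype.card V) h K0 Γ.length r := by unfold E5k1; positivity
  set len1 := (run (x :: ρ) l1).length with hlen1
  have hpos1 : 1 ≤ len1 := E5_run_pos x ρ l1
  by_cases hI : len1 - 1 ∈ Finset.Icc (r - K0 - 2 * h) (r + 2 * h)
  · -- main case
    have hI' := hI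
    rw [Finset.mem_Icc] at hI'
    set A : List V := Γ ++ run (x :: ρ) l1 with hA
    set qB : List V → ℕ := fun B => r + 1 - (run (x :: ρ) (l1 ++ B)).length with hqB
    have hstep : W K (2 * h) (lst x l1) (fun B => ind (∀ y ∈ B, y ∉ Γ) *
        (ind (¬ LHin (2 * h) (2 * h) x ρ (l1 ++ B)) *
          ∑ m ∈ Finset.range (K0 + 1), W K m (lst x (l1 ++ B)) (fun F =>
            ind ((run (x :: ρ) (l1 ++ B)).length + lel (lst x (l1 ++ B)) F = r + 1) *
            ind (∃ y ∈ F, y ∈ Γ ∨ y ∈ run (x :: ρ) ((l1 ++ B).rdrop (2 * h))))))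
        ≤ W K (2 * h) (lst x l1) (fun B =>
          ∑ m ∈ Finset.range (K0 + 1), W K m (lst (lst x l1) B) (fun F =>
            ind (lel (lst (lst x l1) B) F = qB B) * ind (∃ y ∈ F, y ∈ A))) := by
      apply W_mono
      intro B hB
      have hdrop : (l1 ++ B).rdrop (2 * h) = l1 := by
        rw [List.rdrop, List.length_append, hB]
        have : l1.length + 2 * h - 2 * h = l1.length := by omega
        rw [this, List.take_append_of_le_length le_rfl, List.take_length]
      have hS0 : 0 ≤ ∑ m ∈ Finset.range (K0 + 1), W K m (lst x (l1 ++ B)) (fun F =>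
            ind ((run (x :: ρ) (l1 ++ B)).length + lel (lst x (l1 ++ B)) F = r + 1) *
            ind (∃ y ∈ F, y ∈ Γ ∨ y ∈ run (x :: ρ) ((l1 ++ B).rdrop (2 * h)))) := by
        apply Finset.sum_nonneg
        intro m _
        apply W_nonneg
        intro F _
        exact mul_nonneg (ind_nonneg _) (ind_nonneg _)
      have hS1 : ∑ m ∈ Finset.range (K0 + 1), W K m (lst x (l1 ++ B)) (fun F =>
            ind ((run (x :: ρ) (l1 ++ B)).length + lel (lst x (l1 ++ B)) F = r + 1) *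
            ind (∃ y ∈ F, y ∈ Γ ∨ y ∈ run (x :: ρ) ((l1 ++ B).rdrop (2 * h))))
          ≤ ∑ m ∈ Finset.range (K0 + 1), W K m (lst (lst x l1) B) (fun F =>
            ind (lel (lst (lst x l1) B) F = qB B) * ind (∃ y ∈ F, y ∈ A)) := by
        apply Finset.sum_le_sum
        intro m _
        rw [hdrop, lst_append]
        apply W_mono
        intro F _
        apply mul_le_mul
        · apply ind_mono
          intro hh
          simp only [hqB]
          omega
        · apply ind_mono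
          rintro ⟨y, hy, h1⟩
          exact ⟨y, hy, by rw [hA, List.mem_append]; exact h1⟩
        · exact ind_nonneg _
        · exact ind_nonneg _
      have i1 := ind_le_one (∀ y ∈ B, y ∉ Γ)
      have i2 := ind_le_one (¬ LHin (2 * h) (2 * h) x ρ (l1 ++ B))
      have i1' := ind_nonneg (∀ y ∈ B, y ∉ Γ)
      have i2' := ind_nonneg (¬ LHin (2 * h) (2 * h) x ρ (l1 ++ B))
      refine le_trans ?_ hS1
      refine le_trans (mul_le_of_le_one_left (mul_nonneg i2' hS0) i1) ?_
      exact mul_le_of_le_one_left hS0 i2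
    refine le_trans hstep ?_
    rw [W_sum]
    refine le_trans (X1 hP K0 hK (lst x l1) qB A) ?_
    have hone : E5k1 θ (Fintype.card V) h K0 Γ.length r * lev (len1 - 1) x ρ l1 ≤
        ∑ q ∈ Finset.Icc (r - K0 - 2 * h) (r + 2 * h),
          E5k1 θ (Fintype.card V) h K0 Γ.length r * lev q x ρ l1 :=
      Finset.single_le_sum (f := fun q => E5k1 θ (Fintype.card V) h K0 Γ.length r * lev q x ρ l1)
        (fun q _ => mul_nonneg hk1 (ind_nonneg _)) hI
    refine le_trans ?_ hone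
    have hlev : lev (len1 - 1) x ρ l1 = 1 := by
      unfold lev
      apply ind_true
      omega
    rw [hlev, mul_one]
    unfold E5k1
    apply mul_le_mul_of_nonneg_left _ (by positivity)
    apply mul_le_mul_of_nonneg_right _ (by positivity)
    apply mul_le_mul_of_nonneg_left _ (by positivity)
    have : A.length ≤ Γ.length + (r + 2 * h + 1) := by
      rw [hA, List.length_append]
      omega
    calc (A.length : ℝ) ≤ ((Γ.length + (r + 2 * h + 1) : ℕ) : ℝ) := by exact_mod_cast this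
      _ = (Γ.length : ℝ) + (r + 2 * h + 1) := by push_cast; ring
  · -- no contribution
    have h0 : W K (2 * h) (lst x l1) (fun B => ind (∀ y ∈ B, y ∉ Γ) *
        (ind (¬ LHin (2 * h) (2 * h) x ρ (l1 ++ B)) *
          ∑ m ∈ Finset.range (K0 + 1), W K m (lst x (l1 ++ B)) (fun F =>
            ind ((run (x :: ρ) (l1 ++ B)).length + lel (lst x (l1 ++ B)) F = r + 1) *
            ind (∃ y ∈ F, y ∈ Γ ∨ y ∈ run (x :: ρ) ((l1 ++ B).rdrop (2 * h))))))
        = W K (2 * h) (lst x l1) (fun _ => 0) := by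
      apply W_congr
      intro B hB
      by_cases hLH : LHin (2 * h) (2 * h) x ρ (l1 ++ B)
      · rw [ind_false (p := ¬ LHin (2 * h) (2 * h) x ρ (l1 ++ B)) (by simpa using hLH)]
        ring
      · have hNo := (not_LHin_iff (2 * h) (2 * h) x ρ l1 B hB).mp hLH
        have hd1 := NoLH_drop (2 * h) x ρ l1 B hnd (by omega) hNo
        have hd2 : (run (x :: ρ) (l1 ++ B)).length ≤ len1 + 2 * h := by
          rw [run_append]
          have := run_length_le (run (x :: ρ) l1) B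
          omega
        have hz : ∑ m ∈ Finset.range (K0 + 1), W K m (lst x (l1 ++ B)) (fun F =>
            ind ((run (x :: ρ) (l1 ++ B)).length + lel (lst x (l1 ++ B)) F = r + 1) *
            ind (∃ y ∈ F, y ∈ Γ ∨ y ∈ run (x :: ρ) ((l1 ++ B).rdrop (2 * h)))) = 0 := by
          apply Finset.sum_eq_zero
          intro m hm
          rw [Finset.mem_range] at hm
          have : W K m (lst x (l1 ++ B)) (fun F =>
            ind ((run (x :: ρ) (l1 ++ B)).length + lel (lst x (l1 ++ B)) F = r + 1) *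
            ind (∃ y ∈ F, y ∈ Γ ∨ y ∈ run (x :: ρ) ((l1 ++ B).rdrop (2 * h))))
              = W K m (lst x (l1 ++ B)) (fun _ => 0) := by
            apply W_congr
            intro F hF
            have hle := lel_le (lst x (l1 ++ B)) F
            rw [ind_false, zero_mul]
            intro hh
            apply hI
            rw [Finset.mem_Icc]
            omega
          rw [this, W_const]
        rw [hz]
        ring
    rw [h0, W_const]
    exact Finset.sum_nonneg (fun q _ => mul_nonneg hk1 (ind_nonneg _))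

theorem E5_B (hP : Par K θ h) (Γ : List V) (hΓ : Γ.Nodup) (r K0 N : ℕ)
    (hK : 4 * K0 ≤ Nat.sqrt (Fintype.card V)) :
    ∑ s ∈ Finset.Ico (2 * h) N, kmT K Γ s (fun x ρ l =>
      ind (¬ LHin (2 * h) (2 * h) x ρ l) *
        ∑ m ∈ Finset.range (K0 + 1), W K m (lst x l) (fun F =>
          ind ((run (x :: ρ) l).length + lel (lst x l) F = r + 1) *
          ind (∃ y ∈ F, y ∈ Γ ∨ y ∈ run (x :: ρ) (l.rdrop (2 * h)))))
      ≤ E5k1 θ (Fintype.card V) h K0 Γ.length r *
        ∑ q ∈ Finset.Icc (r - K0 - 2 * h) (r + 2 * h), PhiN K Γ N q := by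
  have hCZ : 0 ≤ CZ θ := by unfold CZ; positivity
  have hθ := hP.one_le
  have hk1 : 0 ≤ E5k1 θ (Fintype.card V) h K0 Γ.length r := by unfold E5k1; positivity
  rw [Finset.sum_Ico_eq_sum_range]
  calc ∑ s ∈ Finset.range (N - 2 * h), kmT K Γ (2 * h + s) (fun x ρ l =>
      ind (¬ LHin (2 * h) (2 * h) x ρ l) *
        ∑ m ∈ Finset.range (K0 + 1), W K m (lst x l) (fun F =>
          ind ((run (x :: ρ) l).length + lel (lst x l) F = r + 1) *
          ind (∃ y ∈ F, y ∈ Γ ∨ y ∈ run (x :: ρ) (l.rdrop (2 * h)))))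
      ≤ ∑ s ∈ Finset.range (N - 2 * h), kmT K Γ s (fun x ρ l =>
        ∑ q ∈ Finset.Icc (r - K0 - 2 * h) (r + 2 * h),
          E5k1 θ (Fintype.card V) h K0 Γ.length r * lev q x ρ l) := by
        apply Finset.sum_le_sum
        intro s _
        rw [add_comm (2 * h) s, kmT_split]
        apply kmT_mono
        intro i l _ _
        exact E5_B1 hP Γ r K0 hK (Γ.get i) (Γ.drop (i + 1)) l (E5_sub_nodup Γ hΓ i)
    _ = ∑ s ∈ Finset.Ico 0 (N - 2 * h), kmT K Γ s (fun x ρ l =>
        ∑ q ∈ Finset.Icc (r - K0 - 2 * h) (r + 2 * h),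
          E5k1 θ (Fintype.card V) h K0 Γ.length r * lev q x ρ l) := by
        rw [Finset.range_eq_Ico]
    _ ≤ E5k1 θ (Fintype.card V) h K0 Γ.length r *
        ∑ q ∈ Finset.Icc (r - K0 - 2 * h) (r + 2 * h), PhiN K Γ (N - 2 * h) q :=
        E5_mass K Γ (N - 2 * h) 0 _ _ hk1
    _ ≤ E5k1 θ (Fintype.card V) h K0 Γ.length r *
        ∑ q ∈ Finset.Icc (r - K0 - 2 * h) (r + 2 * h), PhiN K Γ N q := by
        apply mul_le_mul_of_nonneg_left _ hk1
        apply Finset.sum_le_sum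
        intro q _
        exact km_mono_N K Γ (Nat.sub_le _ _) (fun x ρ l => ind_nonneg _)

end

theorem err_D (θ A : ℝ) : ∃ C : ℝ, 0 < C ∧ ∀ (V : Type) [Fintype V] [DecidableEq V] (K : HW V) (h : ℕ),
    Par K θ h → ∀ Γ : List V, Γ.Nodup → (Γ.length : ℝ) ≤ A * Nat.sqrt (Fintype.card V) →
    ∀ r K0 N : ℕ, (r : ℝ) ≤ A * Nat.sqrt (Fintype.card V) → 2 * h ≤ K0 →
    4 * K0 ≤ Nat.sqrt (Fintype.card V) →
    ∑ m ∈ Finset.range (K0 + 1), ∑ s ∈ Finset.Ico (2 * h) N, kmT K Γ s (fun x ρ l =>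
      W K m (lst x l) (fun F =>
        ind ((run (x :: ρ) l).length + lel (lst x l) F = r + 1) *
        ind ((∃ y ∈ F, y ∈ Γ ∨ y ∈ run (x :: ρ) (l.rdrop (2 * h))) ∨
          (∃ y ∈ F.drop (2 * h), y ∈ (x :: l).rtake (2 * h + 1)))))
      ≤ C * (((K0 : ℝ) + 1) * (K0 + h)) := by
  set C0 : ℝ := 9 / 2 * CZ θ ^ 2 + 15 / 2 * (CZ θ * θ * CP θ * (2 * A + 1) * (A + 2)) +
    9 * (CZ θ * θ * CP θ * (1 + A)) with hC0
  refine ⟨|C0| + 1, by positivity, ?_⟩
  intro V _ _ K h hP Γ hΓ hΓl r K0 N hr hK2 hK4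
  have hθ := hP.one_le
  have hh1 := hP.h_pos
  have hh16 := hP.h_le
  have hCZ : 0 ≤ CZ θ := by unfold CZ; positivity
  have hCP : 0 ≤ CP θ := by unfold CP; positivity
  set n := Fintype.card V with hn
  set L := Nat.sqrt n with hL
  have hL16 : 16 ≤ L := by omega
  have hLR : (16 : ℝ) ≤ L := by exact_mod_cast hL16
  have hLn : (L : ℝ) * L ≤ n := by exact_mod_cast Nat.sqrt_le n
  have hn0 : (0 : ℝ) < n := by nlinarith
  have hA0 : 0 ≤ A := by
    by_contra hA
    push Not at hA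
    have : (r : ℝ) < 0 := by nlinarith
    have := Nat.cast_nonneg (α := ℝ) r
    linarith
  -- exchange of sums
  have hswap : ∑ m ∈ Finset.range (K0 + 1), ∑ s ∈ Finset.Ico (2 * h) N, kmT K Γ s (fun x ρ l =>
      W K m (lst x l) (fun F =>
        ind ((run (x :: ρ) l).length + lel (lst x l) F = r + 1) *
        ind ((∃ y ∈ F, y ∈ Γ ∨ y ∈ run (x :: ρ) (l.rdrop (2 * h))) ∨
          (∃ y ∈ F.drop (2 * h), y ∈ (x :: l).rtake (2 * h + 1)))))
      = ∑ s ∈ Finset.Ico (2 * h) N, kmT K Γ s (fun x ρ l =>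
        ∑ m ∈ Finset.range (K0 + 1), W K m (lst x l) (fun F =>
        ind ((run (x :: ρ) l).length + lel (lst x l) F = r + 1) *
        ind ((∃ y ∈ F, y ∈ Γ ∨ y ∈ run (x :: ρ) (l.rdrop (2 * h))) ∨
          (∃ y ∈ F.drop (2 * h), y ∈ (x :: l).rtake (2 * h + 1))))) := by
    rw [Finset.sum_comm]
    apply Finset.sum_congr rfl
    intro s _
    rw [kmT_sum]
  rw [hswap]
  have hpt : ∑ s ∈ Finset.Ico (2 * h) N, kmT K Γ s (fun x ρ l =>
        ∑ m ∈ Finset.range (K0 + 1), W K m (lst x l) (fun F =>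
        ind ((run (x :: ρ) l).length + lel (lst x l) F = r + 1) *
        ind ((∃ y ∈ F, y ∈ Γ ∨ y ∈ run (x :: ρ) (l.rdrop (2 * h))) ∨
          (∃ y ∈ F.drop (2 * h), y ∈ (x :: l).rtake (2 * h + 1)))))
      ≤ ∑ s ∈ Finset.Ico (2 * h) N, (kmT K Γ s (fun x ρ l => ∑ q ∈ Finset.Icc (r - K0) r,
          CZ θ * (ind (LHin (2 * h) (2 * h) x ρ l) * lev q x ρ l)) +
        kmT K Γ s (fun x ρ l => ind (¬ LHin (2 * h) (2 * h) x ρ l) *
          ∑ m ∈ Finset.range (K0 + 1), W K m (lst x l) (fun F =>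
            ind ((run (x :: ρ) l).length + lel (lst x l) F = r + 1) *
            ind (∃ y ∈ F, y ∈ Γ ∨ y ∈ run (x :: ρ) (l.rdrop (2 * h))))) +
        kmT K Γ s (fun x ρ l => ∑ q ∈ Finset.Icc (r - K0) r, E5k3 θ n h K0 * lev q x ρ l)) := by
    apply Finset.sum_le_sum
    intro s _
    rw [← kmT_add, ← kmT_add]
    apply kmT_mono
    intro i l _ _
    exact E5_point hP Γ r K0 hK4 _ _ l
  refine le_trans hpt ?_
  rw [Finset.sum_add_distrib, Finset.sum_add_distrib]
  have hTA := E5_A hP Γ hΓ r K0 N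
  have hTB := E5_B hP Γ hΓ r K0 N hK4
  have hk3 : 0 ≤ E5k3 θ n h K0 := by unfold E5k3; positivity
  have hk1 : 0 ≤ E5k1 θ n h K0 Γ.length r := by unfold E5k1; positivity
  have hTC := E5_mass K Γ N (2 * h) (Finset.Icc (r - K0) r) (E5k3 θ n h K0) hk3
  have hK0R : (0 : ℝ) ≤ K0 := Nat.cast_nonneg _
  have hhR : (1 : ℝ) ≤ h := by exact_mod_cast hh1
  have hhL : 16 * (h : ℝ) ≤ L := by exact_mod_cast hh16
  have hKL : 4 * (K0 : ℝ) ≤ L := by exact_mod_cast hK4
  have hrR : (0 : ℝ) ≤ r := Nat.cast_nonneg _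
  -- masses
  have hmassC : ∑ q ∈ Finset.Icc (r - K0) r, PhiN K Γ N q
      ≤ ((K0 : ℝ) + 1) * (CP θ * ((1 + A) * L)) := by
    calc ∑ q ∈ Finset.Icc (r - K0) r, PhiN K Γ N q
        ≤ ∑ q ∈ Finset.Icc (r - K0) r, CP θ * ((1 + A) * L) := by
          apply Finset.sum_le_sum
          intro q hq
          rw [Finset.mem_Icc] at hq
          refine le_trans (phi_bound hP Γ hΓ N q) ?_
          apply mul_le_mul_of_nonneg_left _ hCP
          have : (q : ℝ) ≤ r := by exact_mod_cast hq.2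
          linarith
      _ = (Finset.Icc (r - K0) r).card * (CP θ * ((1 + A) * L)) := by
          rw [Finset.sum_const, nsmul_eq_mul]
      _ ≤ _ := by
          apply mul_le_mul_of_nonneg_right (E5_card r K0)
          positivity
  have hmassB : ∑ q ∈ Finset.Icc (r - K0 - 2 * h) (r + 2 * h), PhiN K Γ N q
      ≤ ((K0 : ℝ) + 4 * h + 1) * (CP θ * ((2 + A) * L)) := by
    calc ∑ q ∈ Finset.Icc (r - K0 - 2 * h) (r + 2 * h), PhiN K Γ N q
        ≤ ∑ q ∈ Finset.Icc (r - K0 - 2 * h) (r + 2 * h), CP θ * ((2 + A) * L) := by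
          apply Finset.sum_le_sum
          intro q hq
          rw [Finset.mem_Icc] at hq
          refine le_trans (phi_bound hP Γ hΓ N q) ?_
          apply mul_le_mul_of_nonneg_left _ hCP
          have : (q : ℝ) ≤ r + 2 * h := by exact_mod_cast hq.2
          have hh2 : (2 : ℝ) * h ≤ L := by linarith
          have : (Nat.sqrt n : ℝ) = L := by rw [hL]
          nlinarith
      _ = (Finset.Icc (r - K0 - 2 * h) (r + 2 * h)).card * (CP θ * ((2 + A) * L)) := by
          rw [Finset.sum_const, nsmul_eq_mul]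
      _ ≤ _ := by
          apply mul_le_mul_of_nonneg_right _ (by positivity)
          rw [Nat.card_Icc]
          have : r + 2 * h + 1 - (r - K0 - 2 * h) ≤ K0 + 4 * h + 1 := by omega
          calc ((r + 2 * h + 1 - (r - K0 - 2 * h) : ℕ) : ℝ) ≤ ((K0 + 4 * h + 1 : ℕ) : ℝ) := by
                exact_mod_cast this
            _ = (K0 : ℝ) + 4 * h + 1 := by push_cast; ring
  -- numerics
  have hT1 : CZ θ * (((K0 : ℝ) + 1) * (3 / 2 * CZ θ * ((2 * h : ℕ) + 1)))
      ≤ 9 / 2 * CZ θ ^ 2 * (((K0 : ℝ) + 1) * (K0 + h)) := by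
    push_cast
    have e : 2 * (h : ℝ) + 1 ≤ 3 * (K0 + h) := by linarith
    have : CZ θ * (((K0 : ℝ) + 1) * (3 / 2 * CZ θ * (2 * h + 1)))
        = 3 / 2 * CZ θ ^ 2 * ((K0 : ℝ) + 1) * (2 * h + 1) := by ring
    rw [this]
    calc 3 / 2 * CZ θ ^ 2 * ((K0 : ℝ) + 1) * (2 * h + 1)
        ≤ 3 / 2 * CZ θ ^ 2 * ((K0 : ℝ) + 1) * (3 * (K0 + h)) :=
          mul_le_mul_of_nonneg_left e (by positivity)
      _ = _ := by ring
  have hT2 : E5k1 θ n h K0 Γ.length r *
        ∑ q ∈ Finset.Icc (r - K0 - 2 * h) (r + 2 * h), PhiN K Γ N q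
      ≤ 15 / 2 * (CZ θ * θ * CP θ * (2 * A + 1) * (A + 2)) * (((K0 : ℝ) + 1) * (K0 + h)) := by
    have hk1' : E5k1 θ n h K0 Γ.length r
        ≤ CZ θ * θ * (K0 * ((2 * A + 1) * L) * (3 / (2 * (n : ℝ)))) := by
      unfold E5k1
      apply mul_le_mul_of_nonneg_left _ (by positivity)
      apply mul_le_mul_of_nonneg_right _ (by positivity)
      apply mul_le_mul_of_nonneg_left _ hK0R
      nlinarith
    calc E5k1 θ n h K0 Γ.length r *
        ∑ q ∈ Finset.Icc (r - K0 - 2 * h) (r + 2 * h), PhiN K Γ N q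
        ≤ (CZ θ * θ * (K0 * ((2 * A + 1) * L) * (3 / (2 * (n : ℝ))))) *
          (((K0 : ℝ) + 4 * h + 1) * (CP θ * ((2 + A) * L))) :=
          mul_le_mul hk1' hmassB (Finset.sum_nonneg (fun q _ => PhiN_nonneg K Γ N q))
            (by positivity)
      _ = (CZ θ * θ * CP θ * (2 * A + 1) * (A + 2)) * (3 / 2) *
          ((K0 : ℝ) * (K0 + 4 * h + 1)) * ((L : ℝ) * L / n) := by
          field_simp
          ring
      _ ≤ (CZ θ * θ * CP θ * (2 * A + 1) * (A + 2)) * (3 / 2) *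
          ((K0 : ℝ) * (K0 + 4 * h + 1)) * 1 := by
          apply mul_le_mul_of_nonneg_left _ (by positivity)
          rw [div_le_one hn0]
          exact hLn
      _ = (CZ θ * θ * CP θ * (2 * A + 1) * (A + 2)) * (3 / 2) *
          ((K0 : ℝ) * (K0 + 4 * h + 1)) := by ring
      _ ≤ (CZ θ * θ * CP θ * (2 * A + 1) * (A + 2)) * (3 / 2) *
          (5 * (((K0 : ℝ) + 1) * (K0 + h))) := by
          apply mul_le_mul_of_nonneg_left _ (by positivity)
          nlinarith
      _ = _ := by ring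
  have hT3 : E5k3 θ n h K0 * ∑ q ∈ Finset.Icc (r - K0) r, PhiN K Γ N q
      ≤ 9 * (CZ θ * θ * CP θ * (1 + A)) * (((K0 : ℝ) + 1) * (K0 + h)) := by
    calc E5k3 θ n h K0 * ∑ q ∈ Finset.Icc (r - K0) r, PhiN K Γ N q
        ≤ E5k3 θ n h K0 * (((K0 : ℝ) + 1) * (CP θ * ((1 + A) * L))) :=
          mul_le_mul_of_nonneg_left hmassC hk3
      _ = (CZ θ * θ * CP θ * (1 + A)) * 3 * (2 * h + 1) * ((K0 : ℝ) + 1) *
          ((K0 : ℝ) * L / n) := by
          unfold E5k3
          push_cast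
          field_simp
      _ ≤ (CZ θ * θ * CP θ * (1 + A)) * 3 * (2 * h + 1) * ((K0 : ℝ) + 1) * 1 := by
          apply mul_le_mul_of_nonneg_left _ (by positivity)
          rw [div_le_one hn0]
          nlinarith
      _ = (CZ θ * θ * CP θ * (1 + A)) * 3 * ((K0 : ℝ) + 1) * (2 * h + 1) := by ring
      _ ≤ (CZ θ * θ * CP θ * (1 + A)) * 3 * ((K0 : ℝ) + 1) * (3 * (K0 + h)) := by
          apply mul_le_mul_of_nonneg_left _ (by positivity)
          linarith
      _ = _ := by ring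
  have hC0' : C0 ≤ |C0| + 1 := by
    have := le_abs_self C0
    linarith
  have hpos : 0 ≤ ((K0 : ℝ) + 1) * (K0 + h) := by positivity
  calc _ ≤ CZ θ * (((K0 : ℝ) + 1) * (3 / 2 * CZ θ * ((2 * h : ℕ) + 1))) +
        E5k1 θ n h K0 Γ.length r *
          ∑ q ∈ Finset.Icc (r - K0 - 2 * h) (r + 2 * h), PhiN K Γ N q +
        E5k3 θ n h K0 * ∑ q ∈ Finset.Icc (r - K0) r, PhiN K Γ N q :=
        add_le_add (add_le_add hTA hTB) hTC
    _ ≤ C0 * (((K0 : ℝ) + 1) * (K0 + h)) := by
        rw [hC0]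
        linarith
    _ ≤ (|C0| + 1) * (((K0 : ℝ) + 1) * (K0 + h)) := mul_le_mul_of_nonneg_right hC0' hpos

end Pool.Agent.helper20.HP
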